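import Pool.Agent.Y485.UGS.Stm

/-!
Project UGS (helper485), part LEVEL: one step down the derived series.
-/

set_option autoImplicit false

namespace Pool.Agent.Y73.UGS

open Pool.Agent.Y485.UGS
open scoped commutatorElement

set_option linter.unusedSectionVars false

variable {G : Type} [Group G]

theorem ball_mono (X : Finset G) {m n : ℕ} (h : m ≤ n) : Ball X m ⊆ Ball X n := by
  rintro g ⟨l, h1, h2, h3⟩
  exact ⟨l, h1.trans h, h2, h3⟩

theorem ball_one (X : Finset G) (n : ℕ) : (1 : G) ∈ Ball X n :=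
  ⟨[], by simp, by simp, by simp⟩

theorem ball_mul (X : Finset G) {m n : ℕ} {a b : G} (ha : a ∈ Ball X m) (hb : b ∈ Ball X n) :
    a * b ∈ Ball X (m + n) := by
  obtain ⟨l, h1, h2, rfl⟩ := ha
  obtain ⟨l', h1', h2', rfl⟩ := hb
  refine ⟨l ++ l', by rw [List.length_append]; omega, ?_, List.prod_append⟩
  intro x hx
  rw [List.mem_append] at hx
  exact hx.elim (h2 x) (h2' x)

theorem ball_inv (X : Finset G) {n : ℕ} {a : G} (ha : a ∈ Ball X n) : a⁻¹ ∈ Ball X n := by
  obtain ⟨l, h1, h2, rfl⟩ := ha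
  refine ⟨(l.map (·⁻¹)).reverse, by simpa using h1, ?_, (List.prod_inv_reverse l).symm⟩
  intro x hx
  rw [List.mem_reverse, List.mem_map] at hx
  obtain ⟨y, hy, rfl⟩ := hx
  rcases h2 y hy with h | h
  · right
    rwa [inv_inv]
  · exact Or.inl h

theorem ball_gen (X : Finset G) {x : G} (hx : x ∈ X ∨ x⁻¹ ∈ X) : x ∈ Ball X 1 :=
  ⟨[x], by simp, by simpa using hx, by simp⟩

theorem ball_fin (X : Finset G) (n : ℕ) : (Ball X n).Finite := by
  have hY : ({x : G | x ∈ X ∨ x⁻¹ ∈ X} : Set G).Finite := by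
    have h1 : ({x : G | x ∈ X ∨ x⁻¹ ∈ X} : Set G) = (X : Set G) ∪ (X : Set G)⁻¹ := by
      ext x
      simp
    rw [h1]
    exact X.finite_toSet.union X.finite_toSet.inv
  induction n with
  | zero =>
    refine (Set.finite_singleton (1 : G)).subset ?_
    rintro g ⟨l, h1, _, rfl⟩
    rw [Nat.le_zero, List.length_eq_zero_iff] at h1
    rw [h1]
    simp
  | succ n ih =>
    refine ((Set.finite_singleton (1 : G)).union (hY.mul ih)).subset ?_
    rintro g ⟨l, h1, h2, rfl⟩
    cases l with
    | nil => left; simp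
    | cons x l =>
      right
      rw [List.prod_cons]
      refine Set.mul_mem_mul (h2 x (by simp)) ⟨l, ?_, fun y hy => h2 y (by simp [hy]), rfl⟩
      rw [List.length_cons] at h1
      omega

section

variable (H : Subgroup G) [H.Normal]

theorem cl_mul (a b : H) : cl H (a * b) = cl H a + cl H b := by
  unfold cl
  rw [map_mul]
  rfl

theorem cl_one : cl H 1 = 0 := by
  unfold cl
  rw [map_one]
  rfl

theorem cl_inv (a : H) : cl H a⁻¹ = - cl H a := by
  unfold cl
  rw [map_inv]
  rfl

/-- elements of trivial class are in the commutator subgroup -/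
theorem cl_zero (a : H) (h : cl H a = 0) : (a : G) ∈ ⁅H, H⁆ := by
  have h1 : Abelianization.of a = 1 := h
  have h2 : a ∈ commutator H := by
    rw [← Abelianization.ker_of]
    exact h1
  rw [← Subgroup.map_subtype_commutator]
  exact ⟨a, h2, rfl⟩

theorem combo (X : Finset G) (M : ℕ) : ∀ (t : ℕ) (s : Fin t → H) (e : Fin t → ℤ),
    (∀ j, (s j : G) ∈ Ball X M) → (∀ j, |e j| ≤ 1) →
    ∃ h : H, (h : G) ∈ Ball X (t * M) ∧
      (h : G) ∈ Subgroup.closure (Set.range (fun j => (s j : G))) ∧
      cl H h = ∑ j, e j • cl H (s j) := by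
  intro t
  induction t with
  | zero =>
    intro s e _ _
    exact ⟨1, ball_one X _, one_mem _, by rw [cl_one]; simp⟩
  | succ t ih =>
    intro s e hs he
    obtain ⟨h, h1, h2, h3⟩ := ih (fun j => s j.succ) (fun j => e j.succ) (fun j => hs _)
      (fun j => he _)
    have h4 : ∃ a : H, (a : G) ∈ Ball X M ∧
        (a : G) ∈ Subgroup.closure (Set.range (fun j => (s j : G))) ∧
        cl H a = e 0 • cl H (s 0) := by
      have h5 := he 0
      have h6 : e 0 = -1 ∨ e 0 = 0 ∨ e 0 = 1 := by
        rw [abs_le] at h5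
        omega
      have h7 : (s 0 : G) ∈ Subgroup.closure (Set.range (fun j => (s j : G))) :=
        Subgroup.subset_closure ⟨0, rfl⟩
      rcases h6 with h6 | h6 | h6
      · refine ⟨(s 0)⁻¹, ?_, ?_, ?_⟩
        · exact ball_inv X (hs 0)
        · exact inv_mem h7
        · rw [cl_inv, h6, neg_one_smul]
      · refine ⟨1, ball_one X _, one_mem _, ?_⟩
        rw [cl_one, h6, zero_smul]
      · exact ⟨s 0, hs 0, h7, by rw [h6, one_smul]⟩
    obtain ⟨a, ha1, ha2, ha3⟩ := h4
    refine ⟨a * h, ?_, ?_, ?_⟩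
    · have := ball_mul X ha1 h1
      rw [show (t + 1) * M = M + t * M by ring]
      exact this
    · refine mul_mem ha2 (Subgroup.closure_mono ?_ h2)
      rintro _ ⟨j, rfl⟩
      exact ⟨j.succ, rfl⟩
    · rw [cl_mul, ha3, h3, Fin.sum_univ_succ]

/-- dissociated sequences -/
def Dis {t : ℕ} (s : Fin t → H) : Prop :=
  ∀ c : Fin t → ℤ, (∀ j, |c j| ≤ 1) → ∑ j, c j • cl H (s j) = 0 → c = 0

theorem dis_card (X : Finset G) (M N n : ℕ) (s : Fin N → H) (hs : ∀ j, (s j : G) ∈ Ball X M)
    (hd : Dis H s) (hn : N * M ≤ n) : 2 ^ N ≤ (Ball X n).ncard := by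
  classical
  have h1 : ∀ e : Finset (Fin N), ∃ h : H, (h : G) ∈ Ball X n ∧
      cl H h = ∑ j, (if j ∈ e then (1 : ℤ) else 0) • cl H (s j) := by
    intro e
    obtain ⟨h, h1, _, h3⟩ := combo H X M N s (fun j => if j ∈ e then (1 : ℤ) else 0) hs
      (by intro j; split_ifs <;> simp)
    exact ⟨h, ball_mono X hn h1, h3⟩
  choose f hf1 hf2 using h1
  have hinj : Function.Injective (fun e => (f e : G)) := by
    intro e e' h
    have h2 : f e = f e' := Subtype.ext h
    have h3 := hf2 e
    rw [h2, hf2 e'] at h3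
    have h4 := hd (fun j => (if j ∈ e then (1 : ℤ) else 0) - (if j ∈ e' then (1 : ℤ) else 0))
      (by intro j; split_ifs <;> simp)
      (by
        simp only [sub_smul, Finset.sum_sub_distrib]
        rw [h3, sub_self])
    ext j
    have h5 := congrFun h4 j
    simp only [Pi.zero_apply] at h5
    by_cases hj : j ∈ e <;> by_cases hj' : j ∈ e' <;> simp_all
  have h2 : (Finset.univ.image (fun e => (f e : G))).card = 2 ^ N := by
    rw [Finset.card_image_of_injective _ hinj, Finset.card_univ, Fintype.card_finset,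
      Fintype.card_fin]
  rw [← h2, ← Set.ncard_coe_finset]
  apply Set.ncard_le_ncard _ (ball_fin X n)
  intro g hg
  rw [Finset.mem_coe, Finset.mem_image] at hg
  obtain ⟨e, _, rfl⟩ := hg
  exact hf1 e

/-- good sequences exist -/
def Good (X : Finset G) (L t : ℕ) : Prop :=
  ∃ s : Fin t → H, (∀ j : Fin t, (s j : G) ∈ Ball X (L + 2 * (j : ℕ))) ∧ Dis H s

theorem extend (X : Finset G) (L t : ℕ) (s : Fin t → H)
    (hs : ∀ j : Fin t, (s j : G) ∈ Ball X (L + 2 * (j : ℕ))) (hd : Dis H s) (hng : ¬ Good H X L (t + 1))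
    (y : H) (hy : (y : G) ∈ Ball X (L + 2 * t)) :
    ∃ c : Fin t → ℤ, (∀ j, |c j| ≤ 1) ∧ cl H y = ∑ j, c j • cl H (s j) := by
  have h1 : ¬ Dis H (Fin.snoc s y : Fin (t + 1) → H) := by
    intro h
    apply hng
    refine ⟨Fin.snoc s y, ?_, h⟩
    intro j
    refine Fin.lastCases ?_ (fun j => ?_) j
    · rw [Fin.snoc_last]
      exact hy
    · rw [Fin.snoc_castSucc]
      exact hs j
  unfold Dis at h1
  push Not at h1
  obtain ⟨c, hc1, hc2, hc3⟩ := h1
  rw [Fin.sum_univ_castSucc] at hc2
  simp only [Fin.snoc_castSucc, Fin.snoc_last] at hc2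
  have h2 : c (Fin.last t) ≠ 0 := by
    intro h
    rw [h, zero_smul, add_zero] at hc2
    have h3 := hd (fun j => c j.castSucc) (fun j => hc1 _) hc2
    apply hc3
    ext j
    refine Fin.lastCases ?_ (fun j => ?_) j
    · exact h
    · exact congrFun h3 j
  have h3 : c (Fin.last t) = 1 ∨ c (Fin.last t) = -1 := by
    have := hc1 (Fin.last t)
    rw [abs_le] at this
    omega
  rcases h3 with h3 | h3
  · refine ⟨fun j => - c j.castSucc, fun j => by rw [abs_neg]; exact hc1 _, ?_⟩
    rw [h3, one_smul] at hc2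
    simp only [neg_smul, Finset.sum_neg_distrib]
    exact eq_neg_of_add_eq_zero_right hc2
  · refine ⟨fun j => c j.castSucc, fun j => hc1 _, ?_⟩
    rw [h3, neg_one_smul] at hc2
    exact (sub_eq_zero.1 (by rw [sub_eq_add_neg]; exact hc2)).symm

end

theorem level : S_LEVEL := by
  classical
  intro G _ X hX H _ R L N n hR hRH hN hn hcard
  have hngN : ¬ Good H X L N := by
    rintro ⟨s, hs, hd⟩
    have h1 : ∀ j, (s j : G) ∈ Ball X (2 * N + L) := fun j => ball_mono X (by omega) (hs j)
    have := dis_card H X (2 * N + L) N n s h1 hd hn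
    omega
  have hex : ∃ t, ¬ Good H X L t := ⟨N, hngN⟩
  have hG0 : Good H X L 0 := ⟨fun j => 1, fun j => j.elim0, fun c _ _ => by ext j; exact j.elim0⟩
  obtain ⟨t, ht⟩ : ∃ t, Nat.find hex = t + 1 := by
    refine ⟨Nat.find hex - 1, ?_⟩
    have : Nat.find hex ≠ 0 := by
      intro h
      have := Nat.find_spec hex
      rw [h] at this
      exact this hG0
    omega
  have htN : t + 1 ≤ N := by
    rw [← ht]
    exact Nat.find_min' hex hngN
  have hng : ¬ Good H X L (t + 1) := by
    rw [← ht]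
    exact Nat.find_spec hex
  have hgt : Good H X L t := by
    by_contra h
    have := Nat.find_min' hex h
    omega
  obtain ⟨s, hs, hd⟩ := hgt
  have hsM : ∀ j, (s j : G) ∈ Ball X (L + 2 * t) := fun j => ball_mono X (by omega) (hs j)
  set D := (N + 2) * (2 * N + L) + 2 with hD
  set K : Subgroup G := ⁅H, H⁆ with hK
  set S : Finset G := Finset.univ.image (fun j => (s j : G)) with hS
  have hSr : (S : Set G) = Set.range (fun j => (s j : G)) := by
    rw [hS]
    simp
  have hb1 : t * (L + 2 * t) + (L + 2 * t) ≤ D := by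
    have h1 : (t + 1) * (L + 2 * t) ≤ (N + 2) * (2 * N + L) :=
      Nat.mul_le_mul (by omega) (by omega)
    have h2 : (t + 1) * (L + 2 * t) = t * (L + 2 * t) + (L + 2 * t) := by ring
    omega
  have hb2 : 1 ≤ t → (L + 2 * t) + (L + 2 * t) + (L + 2 * t) + (L + 2 * t) ≤ D := by
    intro h
    have h1 : 4 * (L + 2 * t) ≤ (N + 2) * (2 * N + L) :=
      Nat.mul_le_mul (by omega) (by omega)
    omega
  set R' : Set G := {g | g ∈ Ball X D ∧ g ∈ K} with hR'
  set B : Subgroup G := Subgroup.normalClosure R' with hB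
  have hBn : B.Normal := Subgroup.normalClosure_normal
  have hKn : K.Normal := by rw [hK]; infer_instance
  have hBK : B ≤ K := by
    apply Subgroup.normalClosure_le_normal
    intro g hg
    exact hg.2
  have hKH : K ≤ H := Subgroup.commutator_le_right H H
  -- the main relation
  have hrel : ∀ y : H, (y : G) ∈ Ball X (L + 2 * t) →
      ∃ h ∈ Subgroup.closure (S : Set G), h⁻¹ * (y : G) ∈ R' := by
    intro y hy
    obtain ⟨c, hc1, hc2⟩ := extend H X L t s hs hd hng y hy
    obtain ⟨h, h1, h2, h3⟩ := combo H X (L + 2 * t) t s c hsM hc1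
    refine ⟨h, by rw [hSr]; exact h2, ?_, ?_⟩
    · exact ball_mono X hb1 (ball_mul X (ball_inv X h1) hy)
    · have h4 : cl H (h⁻¹ * y) = 0 := by
        rw [cl_mul, cl_inv, h3, hc2, neg_add_cancel]
      exact cl_zero H _ h4
  set P : Subgroup G := Subgroup.closure (S : Set G) ⊔ B with hP
  have hSH : Subgroup.closure (S : Set G) ≤ H := by
    rw [Subgroup.closure_le, hSr]
    rintro _ ⟨j, rfl⟩
    exact (s j).2
  have hBP : B ≤ P := le_sup_right
  have hSP : Subgroup.closure (S : Set G) ≤ P := le_sup_left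
  have hR'B : R' ⊆ B := Subgroup.subset_normalClosure
  have hyP : ∀ y : H, (y : G) ∈ Ball X (L + 2 * t) → (y : G) ∈ P := by
    intro y hy
    obtain ⟨h, h1, h2⟩ := hrel y hy
    have h3 : (y : G) = h * (h⁻¹ * y) := by group
    rw [h3]
    exact mul_mem (hSP h1) (hBP (hR'B h2))
  have hconj : ∀ x : G, (x ∈ X ∨ x⁻¹ ∈ X) → ∀ p ∈ P, x * p * x⁻¹ ∈ P := by
    intro x hx
    have h1 : P ≤ P.comap (MulAut.conj x).toMonoidHom := by
      refine sup_le ?_ ?_
      · rw [Subgroup.closure_le, hSr]
        rintro _ ⟨j, rfl⟩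
        show x * (s j : G) * x⁻¹ ∈ P
        have h2 : x * (s j : G) * x⁻¹ ∈ H := (inferInstance : H.Normal).conj_mem _ (s j).2 x
        have h3 : x * (s j : G) * x⁻¹ ∈ Ball X (L + 2 * t) := by
          refine ball_mono X ?_ (ball_mul X (ball_mul X (ball_gen X hx) (hs j))
            (ball_inv X (ball_gen X hx)))
          have := j.2
          omega
        exact hyP ⟨_, h2⟩ h3
      · intro b hb
        exact hBP (hBn.conj_mem b hb x)
    exact fun p hp => h1 hp
  have hPn : P.Normal := by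
    rw [← Subgroup.normalizer_eq_top_iff, eq_top_iff, ← hX, Subgroup.closure_le]
    intro x hx
    rw [SetLike.mem_coe, Subgroup.mem_normalizer_iff]
    intro h
    constructor
    · exact hconj x (Or.inl hx) h
    · intro h1
      have h2 := hconj x⁻¹ (Or.inr (by rwa [inv_inv])) _ h1
      have h3 : x⁻¹ * (x * h * x⁻¹) * x⁻¹⁻¹ = h := by group
      rwa [h3] at h2
  have hHP : H ≤ P := by
    rw [← hRH]
    apply Subgroup.normalClosure_le_normal
    intro r hr
    have h1 : r ∈ H := by
      rw [← hRH]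
      exact Subgroup.subset_normalClosure hr
    exact hyP ⟨r, h1⟩ (ball_mono X (by omega) (hR hr))
  have hcomm : ∀ i j, ⁅(s i : G), (s j : G)⁆ ∈ B := by
    intro i j
    apply hR'B
    refine ⟨?_, ?_⟩
    · rw [commutatorElement_def]
      exact ball_mono X (hb2 (by have := i.2; omega))
        (ball_mul X (ball_mul X (ball_mul X (hsM i) (hsM j)) (ball_inv X (hsM i)))
          (ball_inv X (hsM j)))
    · exact Subgroup.commutator_mem_commutator (s i).2 (s j).2
  have hPB : ⁅P, P⁆ ≤ B := by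
    rw [Subgroup.commutator_le]
    set π := QuotientGroup.mk' B with hπ
    have hπB : ∀ b ∈ B, π b = 1 := fun b hb => (QuotientGroup.eq_one_iff b).2 hb
    have h1 : ∀ i, P ≤ (Subgroup.centralizer {π (s i : G)}).comap π := by
      intro i
      refine sup_le ?_ ?_
      · rw [Subgroup.closure_le, hSr]
        rintro _ ⟨j, rfl⟩
        rw [SetLike.mem_coe, Subgroup.mem_comap, Subgroup.mem_centralizer_singleton_iff]
        have h2 := hπB _ (hcomm j i)
        rw [map_commutatorElement, commutatorElement_eq_one_iff_mul_comm] at h2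
        exact h2
      · intro b hb
        rw [Subgroup.mem_comap, Subgroup.mem_centralizer_singleton_iff, hπB b hb, one_mul, mul_one]
    have h2 : P ≤ (Subgroup.centralizer (π '' (P : Set G))).comap π := by
      refine sup_le ?_ ?_
      · rw [Subgroup.closure_le, hSr]
        rintro _ ⟨j, rfl⟩
        rw [SetLike.mem_coe, Subgroup.mem_comap, Subgroup.mem_centralizer_iff]
        rintro _ ⟨p, hp, rfl⟩
        have h3 := h1 j hp
        rw [Subgroup.mem_comap, Subgroup.mem_centralizer_singleton_iff] at h3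
        exact h3
      · intro b hb
        rw [Subgroup.mem_comap, Subgroup.mem_centralizer_iff]
        rintro _ ⟨p, hp, rfl⟩
        rw [hπB b hb, one_mul, mul_one]
    intro p hp q hq
    have h3 := h2 hq
    rw [Subgroup.mem_comap, Subgroup.mem_centralizer_iff] at h3
    have h4 := h3 (π p) ⟨p, hp, rfl⟩
    have h5 : π ⁅p, q⁆ = 1 := by
      rw [map_commutatorElement, commutatorElement_eq_one_iff_mul_comm]
      exact h4
    exact (QuotientGroup.eq_one_iff _).1 h5
  have hKB : K ≤ B := (Subgroup.commutator_mono hHP hHP).trans hPB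
  refine ⟨⟨S, ?_, ?_, ?_⟩, R', fun g hg => hg.1, le_antisymm hBK hKB⟩
  · refine (Finset.card_image_le).trans ?_
    rw [Finset.card_univ, Fintype.card_fin]
    omega
  · intro g hg
    rw [hS, Finset.mem_image] at hg
    obtain ⟨j, _, rfl⟩ := hg
    exact ⟨(s j).2, ball_mono X (by omega) (hsM j)⟩
  · apply le_antisymm (sup_le hSH hKH)
    exact hHP.trans (sup_le_sup_left hBK _)

end Pool.Agent.Y73.UGS
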